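import Pool.Agent.H67.PS.Fin

/-!
Primes in short intervals behind the points `λ m ^ κ`: for a positive proportion of the `m ≤ M` the
interval `(λ m ^ κ, λ m ^ κ + H]` contains the expected order of magnitude of primes, for
`X ^ ε max((X / M) ^ (1 / 2), X ^ (3 / 5) / M) ≤ H ≤ X`, `X = λ M ^ κ`.
-/

namespace Pool.Agent.H67.PS.Old.PrimesBehindPowers

/-- For all real `κ > 0` and `ε > 0` there are `c > 0` and `X₀` such that, whenever `X = λ M ^ κ ≥ X₀` with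
`λ` real, `M` a natural number and `X ^ ε ≤ M ≤ X ^ (1 - ε)`, and `H` is real with
`X ^ ε max((X / M) ^ (1 / 2), X ^ (3 / 5) / M) ≤ H ≤ X`, at least `c M` of the integers `m` in `[1, M]`
have at least `c H / log X` primes in `(λ m ^ κ, λ m ^ κ + H]`. -/
theorem result : ∀ κ : ℝ, 0 < κ → ∀ ε : ℝ, 0 < ε → ∃ c : ℝ, 0 < c ∧ ∃ X₀ : ℝ,
    ∀ (lam : ℝ) (M : ℕ) (X : ℝ), X = lam * (M : ℝ) ^ κ → X₀ ≤ X → X ^ ε ≤ M →
    (M : ℝ) ≤ X ^ (1 - ε) → ∀ H : ℝ,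
    X ^ ε * max ((X / M) ^ ((1 : ℝ) / 2)) (X ^ ((3 : ℝ) / 5) / M) ≤ H → H ≤ X →
    c * M ≤ (((Finset.Icc 1 M).filter fun m : ℕ => c * (H / Real.log X) ≤
      (((Finset.Ioc ⌊lam * (m : ℝ) ^ κ⌋₊ ⌊lam * (m : ℝ) ^ κ + H⌋₊).filter Nat.Prime).card : ℝ)).card :
        ℝ) := by
  intro κ hκ ε hε
  obtain ⟨c, hc, X0, h⟩ := Pool.Agent.H67.PS.fin_card κ hκ ε hε
  refine ⟨c, hc, X0, fun lam M X hX hX0 hX1 hX2 H hH1 hH2 => ?_⟩
  rw [← Real.sqrt_eq_rpow] at hH1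
  exact (h lam M X hX hX0 hX1 hX2 H hH1 hH2).2

end Pool.Agent.H67.PS.Old.PrimesBehindPowers
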